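import Pool.Agent.N756.UA.Main

set_option autoImplicit false

/-!
The uniform abc conjecture only needs to be known for triples whose conductor is extremely close
to `1`: for any function `φ ≥ 0` of sublinear growth, it is equivalent to
`H ≤ C δ ^ (1 + ε)` for the triples with `log N ≤ exp (-φ (log H))`; and it suffices to consider
triples of `ℓ`-th powers with `ℓ` prime, `ℓ ≥ exp (φ (log H))`.
-/

namespace Pool.Agent.Results.MP_6e34ef_nt.ConductorNearOne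

open NumberField Pool.Agent.N756.UA

theorem result (A : ℝ) (hA : 0 ≤ A) (φ : ℝ → ℝ) (hφ0 : ∀ h : ℝ, 0 ≤ h → 0 ≤ φ h)
    (hφ : ∀ κ : ℝ, 0 < κ → ∃ c : ℝ, ∀ h : ℝ, 0 ≤ h → φ h ≤ κ * h + c) :
    List.TFAE [
      ∀ ε : ℝ, 0 < ε → ∃ C : ℝ, 0 < C ∧ ∀ (K : Type) [Field K] [NumberField K] (a b c : K),
        a ≠ 0 → b ≠ 0 → c ≠ 0 → a + b + c = 0 →
          H a b c ≤ C * (rd K * N a b c) ^ (A + ε),
      ∀ ε : ℝ, 0 < ε → ∃ C : ℝ, 0 < C ∧ ∀ (K : Type) [Field K] [NumberField K] (a b c : K),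
        a ≠ 0 → b ≠ 0 → c ≠ 0 → a + b + c = 0 →
          Real.log (N a b c) ≤ Real.exp (-φ (Real.log (H a b c))) →
          H a b c ≤ C * rd K ^ (A + ε),
      ∀ ε : ℝ, 0 < ε → ∃ C : ℝ, 0 < C ∧ ∀ (K : Type) [Field K] [NumberField K] (ℓ : ℕ)
        (u v w : K), ℓ.Prime → u ≠ 0 → v ≠ 0 → w ≠ 0 → u ^ ℓ + v ^ ℓ + w ^ ℓ = 0 →
          Real.exp (φ (ℓ * Real.log (H u v w))) ≤ ℓ →
          Real.log (N u v w) ≤ Real.exp (-φ (ℓ * Real.log (H u v w))) →
          H u v w ^ ℓ ≤ C * rd K ^ (A + ε)] := by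
  tfae_have 1 → 2 := by
    intro h ε hε
    obtain ⟨C, hC, h1⟩ := h ε hε
    refine ⟨C * (Real.exp 1) ^ (A + ε), mul_pos hC (Real.rpow_pos_of_pos (Real.exp_pos _) _),
      fun K _ _ a b c ha hb hc habc hN => ?_⟩
    refine (h1 K a b c ha hb hc habc).trans ?_
    have hrd : 0 < rd K := rd_pos
    have hN0 := N_pos ha hb hc
    have hN1 : N a b c ≤ Real.exp 1 := by
      rw [← Real.log_le_iff_le_exp hN0]
      refine hN.trans (Real.exp_le_one_iff.2 ?_)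
      have := hφ0 _ (log_H_nonneg a b c)
      linarith
    rw [Real.mul_rpow hrd.le hN0.le, mul_assoc]
    refine mul_le_mul_of_nonneg_left ?_ hC.le
    rw [mul_comm]
    exact mul_le_mul_of_nonneg_right
      (Real.rpow_le_rpow hN0.le hN1 (by positivity)) (Real.rpow_pos_of_pos hrd _).le
  tfae_have 2 → 3 := by
    intro h ε hε
    obtain ⟨C, hC, h1⟩ := h ε hε
    refine ⟨C, hC, fun K _ _ ℓ u v w hℓ hu hv hw huvw _ hN => ?_⟩
    rw [← H_pow]
    refine h1 K _ _ _ (pow_ne_zero _ hu) (pow_ne_zero _ hv) (pow_ne_zero _ hw) huvw ?_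
    rw [N_pow hu hv hw hℓ.ne_zero, H_pow, Real.log_pow]
    exact hN
  tfae_have 3 → 1 := of_fermat A φ hA hφ hφ0
  tfae_finish

end Pool.Agent.Results.MP_6e34ef_nt.ConductorNearOne
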