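import Pool.Agent.N756.UA.Low

set_option autoImplicit false

/-!
Lower bounds for the uniform abc conjecture in the discriminant aspect: the height exceeds the
root discriminant by the factor of Stewart and Tijdeman although the conductor tends to `1`.
-/

namespace Pool.Agent.Results.MP_6e34ef_nt.LowerBoundNearOne

open NumberField Pool.Agent.N756.UA

theorem result (T : ℝ) : ∃ (K : Type) (_ : Field K) (_ : NumberField K) (a b c : K),
    a ≠ 0 ∧ b ≠ 0 ∧ c ≠ 0 ∧ a + b + c = 0 ∧ T ≤ H a b c ∧
    rd K * Real.exp (√(Real.log (H a b c)) / (40 * Real.log (Real.log (H a b c)))) ≤ H a b c ∧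
    Real.log (N a b c) ≤
      Real.exp (-(√(Real.log (H a b c)) / (40 * Real.log (Real.log (H a b c))))) :=
  lower T

end Pool.Agent.Results.MP_6e34ef_nt.LowerBoundNearOne
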