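import Pool.Agent.N746.UR.Dvd

/-!
# The uniform abc conjecture and the points `∞`, `k ^ (1 / n)`

The uniform abc conjecture asserts, in logarithmic form, that for every `ε > 0` there is `C` such that
`h(P) ≤ (1 + ε) (log δ_K + rad(P)) + C` for all number fields `K` and all points `P = (a : b : c)`
over `K` with `a + b + c = 0` and `abc ≠ 0`, where `h(P) = log H(a, b, c)`,
`rad(P) = log N(a, b, c)` and `δ_K` is the root discriminant.

Let `n ≥ 2` and let `k = m u ^ n`, where `u ≠ 0` and `m ≠ 0` are integers with `m ≡ 1 (mod n)`, or, if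
`n` is a prime, `m` not divisible by `n`. We prove that the uniform abc conjecture is equivalent to the
inequality `(n - 1) h(x) ≤ (1 + ε) (log δ_K + rad_k(x)) + C` for all number fields `K` and all `x ∈ K`,
`x ^ n ≠ k`, where `h(x)` is the height of `x` and `rad_k(x)` is the sum of `log N(v) / [K : ℚ]` over the
primes `v` with `|x|_v > 1` or `|x ^ n - k|_v < 1`. The field `K` does not change and the constants do
not depend on it; hence the same holds for every class of number fields. So for every finite set of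
points, given by an integer polynomial, which contains these `n + 1` points, the uniform inequality
implies the uniform abc conjecture.

Proof. For `k ≡ 1 (mod n)`, `k ≠ 1`, the Newton map of `x ^ n - k` is ramified only over `∞` and the
roots, so that `0` may be added to the set, and for `k = n t + 1 > 0` the map
`w ↦ (n t) ^ t / (k ^ t w (1 - w ^ n) ^ t)` is ramified only over `0`, `∞` and the roots, and it maps
`0`, `1` and `∞` to `0` and `∞`. For `k = 1 - n t < 0` one takes
`w ↦ (n t - 1) ^ t (1 - w ^ n) ^ t / ((n t) ^ t w)`.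
-/

set_option autoImplicit false

namespace Pool.Agent.Results.MP_6e34ef_nt.UniformRoots

open NumberField IsDedekindDomain Polynomial

variable {K : Type} [Field K] [NumberField K]

/-- the height `h(P) = log H(P)` of the point `P` with coordinates `x` -/
noncomputable def height (x : Fin 3 → K) : ℝ :=
  (∑ w : InfinitePlace K, (w.mult : ℝ) * Real.log (max (w (x 0)) (max (w (x 1)) (w (x 2)))) +
    ∑ᶠ v : HeightOneSpectrum (𝓞 K), Real.log
      (max (FinitePlace.mk v (x 0)) (max (FinitePlace.mk v (x 1)) (FinitePlace.mk v (x 2))))) /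
    (Module.finrank ℚ K : ℝ)

/-- `rad(P) = log N(P)`, where `N(P)` is the conductor: the sum of `log N(v) / [K : ℚ]` over the primes
`v` at which the valuations of the coordinates are not all equal -/
noncomputable def rad (x : Fin 3 → K) : ℝ :=
  (∑ᶠ (v : HeightOneSpectrum (𝓞 K)) (_ : ¬ (FinitePlace.mk v (x 0) = FinitePlace.mk v (x 1) ∧
        FinitePlace.mk v (x 1) = FinitePlace.mk v (x 2))),
    Real.log (Ideal.absNorm v.asIdeal : ℝ)) / (Module.finrank ℚ K : ℝ)

/-- `log δ_K`, where `δ_K` is the root discriminant of `K` -/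
noncomputable def logRootDisc (K : Type) [Field K] [NumberField K] : ℝ :=
  Real.log |(discr K : ℝ)| / (Module.finrank ℚ K : ℝ)

/-- the points `P = (a : b : c)` of the abc conjecture: `a + b + c = 0` and `abc ≠ 0` -/
def IsPoint (x : Fin 3 → K) : Prop := x 0 + x 1 + x 2 = 0 ∧ x 0 * x 1 * x 2 ≠ 0

/-- the inequality of the uniform abc conjecture over `K`, with the constants `ε` and `C` -/
def AbcIneq (K : Type) [Field K] [NumberField K] (ε C : ℝ) : Prop :=
  ∀ x : Fin 3 → K, IsPoint x → height x ≤ (1 + ε) * (logRootDisc K + rad x) + C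

/-- the absolute logarithmic height `h(x)` of `x`, that is of the point `[x : 1]` -/
noncomputable def heightOf (x : K) : ℝ :=
  (∑ w : InfinitePlace K, (w.mult : ℝ) * Real.log (max 1 (w x)) +
    ∑ᶠ v : HeightOneSpectrum (𝓞 K), Real.log (max 1 (FinitePlace.mk v x))) /
    (Module.finrank ℚ K : ℝ)

/-- the truncated counting function of `x` with respect to `∞` and the zeros of `P`: the sum of
`log N(v) / [K : ℚ]` over the primes `v` with `|x|_v > 1` or `|P(x)|_v < 1` -/
noncomputable def radOf (P : ℤ[X]) (x : K) : ℝ :=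
  (∑ᶠ (v : HeightOneSpectrum (𝓞 K))
      (_ : 1 < FinitePlace.mk v x ∨ FinitePlace.mk v (aeval x P) < 1),
    Real.log (Ideal.absNorm v.asIdeal : ℝ)) / (Module.finrank ℚ K : ℝ)

/-- the inequality for `∞` and the zeros of `P` over `K`, with the constants `ε` and `C`:
`(q - 2) h(x) ≤ (1 + ε) (log δ_K + radOf P x) + C` for all `x ∈ K` with `P(x) ≠ 0`, where
`q = deg P + 1` -/
def ZeroIneq (P : ℤ[X]) (K : Type) [Field K] [NumberField K] (ε C : ℝ) : Prop :=
  ∀ x : K, aeval x P ≠ 0 →
    ((P.natDegree : ℝ) - 1) * heightOf x ≤ (1 + ε) * (logRootDisc K + radOf P x) + C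

/-- the inequality holds for all `ε > 0` and all fields of the class `F`, with constants which depend
only on `ε` -/
def Uniform (F : (K : Type) → [Field K] → [NumberField K] → Prop)
    (Q : (K : Type) → [Field K] → [NumberField K] → ℝ → ℝ → Prop) : Prop :=
  ∀ ε : ℝ, 0 < ε → ∃ C : ℝ, ∀ (K : Type) [Field K] [NumberField K], F K → Q K ε C

open Pool.Agent.N757.RD Pool.Agent.N757.TL Pool.Agent.N746.RK Pool.Agent.N746.UR

theorem height_mul (x : Fin 3 → K) : dg K * height x = H3 x := by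
  rw [show height x = H3 x / dg K from rfl, mul_div_cancel₀ _ dg_pos.ne']

theorem rad_mul {x : Fin 3 → K} (hx : IsPoint x) : dg K * rad x = R (yy x) := by
  have e : rad x = W (I (yy x)) / dg K := by
    rw [I_yy hx.1 hx.2]
    rfl
  rw [e, mul_div_cancel₀ _ dg_pos.ne']
  rfl

theorem heightOf_mul (x : K) : dg K * heightOf x = D x := by
  have e : heightOf x = D x / dg K := by
    unfold heightOf
    rw [D_eq]
    have h1 : ∀ w : InfinitePlace K, Real.log (max 1 (w x)) = Real.posLog (w x) := fun w =>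
      log_max_one _ (apply_nonneg _ _)
    have h2 : ∀ v : HeightOneSpectrum (𝓞 K), Real.log (max 1 (FinitePlace.mk v x)) =
        Real.posLog (FinitePlace.mk v x) := fun v => log_max_one _ (apply_nonneg _ _)
    simp only [h1, h2]
    rfl
  rw [e, mul_div_cancel₀ _ dg_pos.ne']

theorem radOf_mul (P : ℤ[X]) (x : K) : dg K * radOf P x = W (JP P x) := by
  rw [show radOf P x = W (JP P x) / dg K from rfl, mul_div_cancel₀ _ dg_pos.ne']

theorem logRootDisc_nonneg (K : Type) [Field K] [NumberField K] : 0 ≤ logRootDisc K := by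
  unfold logRootDisc
  refine div_nonneg (Real.log_nonneg ?_) (Nat.cast_nonneg _)
  have h := NumberField.discr_ne_zero K
  exact_mod_cast Int.one_le_abs h

/-- the point with `- a / c = y` -/
def pt (y : K) : Fin 3 → K := ![y, 1 - y, -1]

omit [NumberField K] in
theorem isPoint_pt {y : K} (h0 : y ≠ 0) (h1 : y ≠ 1) : IsPoint (pt y) := by
  have h2 : (1 : K) - y ≠ 0 := sub_ne_zero.2 h1.symm
  refine ⟨?_, ?_⟩
  · simp [pt]
  · simp [pt, h0, h2]

omit [NumberField K] in
theorem yy_pt (y : K) : yy (pt y) = y := by simp [yy, pt]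

/-- the two forms of the abc inequality -/
theorem abc_down {ε C : ℝ} (h : AbcIneq K ε C) : ∀ y : K, y ≠ 0 ∧ y ≠ 1 →
    D y ≤ (1 + ε) * (R y + dg K * logRootDisc K) + C * dg K := by
  rintro y ⟨h0, h1⟩
  have hd := dg_pos (K := K)
  have hP := isPoint_pt h0 h1
  have h3 := mul_le_mul_of_nonneg_left (h (pt y) hP) hd.le
  have h4 := (H3_bounds hP.1 hP.2).1
  have h5 := rad_mul hP
  rw [← height_mul] at h4
  rw [yy_pt] at h4 h5
  rw [← h5]
  linarith

theorem abc_up {ε C : ℝ} (h : ∀ y : K, y ≠ 0 ∧ y ≠ 1 →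
    D y ≤ (1 + ε) * (R y + dg K * logRootDisc K) + C * dg K) : AbcIneq K ε (C + Real.log 2) := by
  intro x hx
  have hd := dg_pos (K := K)
  have h2 := h (yy x) ⟨yy_ne_zero hx.2, yy_ne_one hx.1 hx.2⟩
  have h3 := (H3_bounds hx.1 hx.2).2
  rw [← rad_mul hx] at h2
  rw [← height_mul] at h3
  have h4 : dg K * height x ≤
      dg K * ((1 + ε) * (logRootDisc K + rad x) + (C + Real.log 2)) := by
    linarith
  exact le_of_mul_le_mul_left h4 hd

/-- the two forms of the inequality for `∞` and the zeros of `P` -/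
theorem zero_iff {P : ℤ[X]} {ε C : ℝ} : ZeroIneq P K ε C ↔ ∀ x : K, aeval x P ≠ 0 →
    ((P.natDegree : ℝ) - 1) * D x ≤ (1 + ε) * (W (JP P x) + dg K * logRootDisc K) + C * dg K := by
  have hd := dg_pos (K := K)
  refine forall_congr' fun x => imp_congr_right fun _ => ?_
  rw [← radOf_mul, ← heightOf_mul, ← mul_le_mul_iff_right₀ hd]
  constructor <;> intro h <;> linarith

/-- **The uniform abc conjecture and the roots of an integer.** Let `n ≥ 2`, and let `m, u ≠ 0` be
integers with `m ≡ 1 (mod n)`, or with `m` not divisible by `n`, if `n` is a prime; `k = m u ^ n`.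
(1) Let `P ≠ 0` be an integer polynomial divisible by `X ^ n - k`. For every `ε > 0` there is `ε' > 0`
such that for every `C'` there is `C` with the following property: every number field `K` with
`(deg P - 1) h(x) ≤ (1 + ε') (log δ_K + radOf P x) + C'` for all `x ∈ K`, `P(x) ≠ 0`, satisfies
`h(a, b, c) ≤ (1 + ε) (log δ_K + rad(a, b, c)) + C` for all `a + b + c = 0`, `abc ≠ 0`.
(2) Conversely, for every `ε > 0` there is `ε' > 0` such that for every `C'` there is `C` such that each
`K` which satisfies the inequality for `a + b + c = 0` with `ε'`, `C'` satisfies that for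
`P = X ^ n - k` with `ε`, `C`.
(3) For every class of number fields, the uniform abc conjecture for the fields of the class is
equivalent to the uniform inequality for `X ^ n - k` over them. -/
theorem result (n : ℕ) (hn : 2 ≤ n) (m u : ℤ) (hm : m ≠ 0) (hu : u ≠ 0)
    (hmn : (n : ℤ) ∣ m - 1 ∨ (n.Prime ∧ ¬ (n : ℤ) ∣ m)) :
    (∀ P : ℤ[X], P ≠ 0 → (X ^ n - C (m * u ^ n)) ∣ P →
      ∀ ε : ℝ, 0 < ε → ∃ ε' : ℝ, 0 < ε' ∧ ∀ C' : ℝ, ∃ C : ℝ,
        ∀ (K : Type) [Field K] [NumberField K], ZeroIneq P K ε' C' → AbcIneq K ε C) ∧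
    (∀ ε : ℝ, 0 < ε → ∃ ε' : ℝ, 0 < ε' ∧ ∀ C' : ℝ, ∃ C₁ : ℝ,
      ∀ (K : Type) [Field K] [NumberField K],
        AbcIneq K ε' C' → ZeroIneq (X ^ n - C (m * u ^ n)) K ε C₁) ∧
    ∀ F : (K : Type) → [Field K] → [NumberField K] → Prop,
      Uniform F (fun K _ _ => AbcIneq K) ↔
        Uniform F (fun K _ _ => ZeroIneq (X ^ n - C (m * u ^ n)) K) := by
  have hk : m * u ^ n ≠ 0 := mul_ne_zero hm (pow_ne_zero n hu)
  have hdeg : (X ^ n - C (m * u ^ n) : ℤ[X]).natDegree = n := natDegree_X_pow_sub_C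
  have hn0 : (X ^ n - C (m * u ^ n) : ℤ[X]) ≠ 0 := by
    intro h
    rw [h, natDegree_zero] at hdeg
    omega
  have part1 : ∀ P : ℤ[X], P ≠ 0 → (X ^ n - C (m * u ^ n)) ∣ P →
      ∀ ε : ℝ, 0 < ε → ∃ ε' : ℝ, 0 < ε' ∧ ∀ C' : ℝ, ∃ C : ℝ,
        ∀ (K : Type) [Field K] [NumberField K], ZeroIneq P K ε' C' → AbcIneq K ε C := by
    intro P hP0 hdvd ε hε
    have T : Tr PA hA rA (PP P) (hP P) (rP P) :=
      ((((tr_roots hn hmn).trans ((mp_scale hn hu).tr le_rfl (hR_nonneg hn) rR_nonneg)).trans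
        (tr_root_poly hn (m * u ^ n)).1)).trans (tr_dvd (by rw [hdeg]; exact hn) hP0 hdvd)
    obtain ⟨ε', hε', h⟩ := T ε hε
    refine ⟨ε', hε', fun C' => ?_⟩
    obtain ⟨C, hC⟩ := h C'
    refine ⟨C + Real.log 2, fun K _ _ hyp => abc_up ?_⟩
    have hd := dg_pos (K := K)
    exact hC K (dg K * logRootDisc K) (mul_nonneg hd.le (logRootDisc_nonneg K)) (zero_iff.1 hyp)
  have part2 : ∀ ε : ℝ, 0 < ε → ∃ ε' : ℝ, 0 < ε' ∧ ∀ C' : ℝ, ∃ C₁ : ℝ,
      ∀ (K : Type) [Field K] [NumberField K],
        AbcIneq K ε' C' → ZeroIneq (X ^ n - C (m * u ^ n)) K ε C₁ := by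
    intro ε hε
    have T : Tr (PP (X ^ n - C (m * u ^ n))) (hP (X ^ n - C (m * u ^ n)))
        (rP (X ^ n - C (m * u ^ n))) PA hA rA :=
      (tr_root_poly hn (m * u ^ n)).2.trans (tr_abc hn hk)
    obtain ⟨ε', hε', h⟩ := T ε hε
    refine ⟨ε', hε', fun C' => ?_⟩
    obtain ⟨C₁, hC⟩ := h C'
    refine ⟨C₁, fun K _ _ hyp => zero_iff.2 ?_⟩
    have hd := dg_pos (K := K)
    exact hC K (dg K * logRootDisc K) (mul_nonneg hd.le (logRootDisc_nonneg K)) (abc_down hyp)
  refine ⟨part1, part2, fun F => ⟨fun h ε hε => ?_, fun h ε hε => ?_⟩⟩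
  · obtain ⟨ε', hε', h1⟩ := part2 ε hε
    obtain ⟨C', hC'⟩ := h ε' hε'
    obtain ⟨C₁, hC⟩ := h1 C'
    exact ⟨C₁, fun K _ _ hF => hC K (hC' K hF)⟩
  · obtain ⟨ε', hε', h1⟩ := part1 _ hn0 dvd_rfl ε hε
    obtain ⟨C', hC'⟩ := h ε' hε'
    obtain ⟨C₁, hC⟩ := h1 C'
    exact ⟨C₁, fun K _ _ hF => hC K (hC' K hF)⟩

end Pool.Agent.Results.MP_6e34ef_nt.UniformRoots
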