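import Mathlib
import Pool.Agent.N906.LD.Uni

/-!
# The exceptions to `H ≤ N ^ M` over every number field, uniformly in the exponent `M`

`K` is a number field of degree `d`. A triple `a + b + c = 0` of nonzero elements of `K`, up to scaling, is given by `x = -a/c`,
`1 - x = -b/c`, `x ≠ 0, 1`. Then `exp h(x) = H(a, b, c)` up to a factor at most `2`, and
`N(x) = cond(x) + cond(1/x) + cond(x - 1) = log N(a, b, c)`, the logarithm of the conductor of the problem.

For `0 < κ < 1` and `c` real let `V(κ, c, B)` be the number of the `x` of height at most `B` in a given polydisc `Ω` (in the product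
of the completions at the infinite places) with `N(x) ≤ (3 - κ) h(x) + c`, i.e. `H ≥ C N ^ M`, `M = 1 / (3 - κ)`, `1/3 < M < 1/2`. Then

  `log V(κ, c, B) = d (2 - κ) log B + (√(24 κ d) + o(1)) √(log B / log log B)`,

uniformly for `κ` in compact subsets of `(0, 1)` and bounded `c`. In particular the exponent `M = M(B)` may vary with `B`.
-/

set_option autoImplicit false

namespace Pool.Agent.Results.MP_6e34ef_nt.UniformSecondOrder

open NumberField IsDedekindDomain Filter Topology

section

variable {K : Type} [Field K] [NumberField K]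

/-- the absolute logarithmic height (`Height.logHeight₁` is relative to `K`) -/
noncomputable def height (x : K) : ℝ := Height.logHeight₁ x / (Module.finrank ℚ K : ℝ)

/-- the sum of `log N(v) / [K : ℚ]` over the primes `v` with `|x|_v < 1` -/
noncomputable def cond (x : K) : ℝ :=
  (∑ᶠ (v : HeightOneSpectrum (𝓞 K)) (_ : FinitePlace.mk v x < 1),
    Real.log (Ideal.absNorm v.asIdeal : ℝ)) / (Module.finrank ℚ K : ℝ)

/-- `N(x) = cond(x) + cond(1/x) + cond(x - 1)`: the logarithm of the conductor of `(a, b, c)` for `x = -a/c` -/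
noncomputable def total (x : K) : ℝ := cond x + cond x⁻¹ + cond (x - 1)

/-- the `x ≠ 0, 1` of height at most `B` with `|x - z_w|_w < η` for all infinite places `w` and `N(x) ≤ (3 - κ) h(x) + c` -/
def Points (z : InfinitePlace K → ℂ) (η κ c B : ℝ) : Set K :=
  {x | x ≠ 0 ∧ x ≠ 1 ∧ Real.exp (height x) ≤ B ∧ (∀ w : InfinitePlace K, ‖w.embedding x - z w‖ < η) ∧
    total x ≤ (3 - κ) * height x + c}

end

/-- **Theorem.** Let `K` be a number field of degree `d`, `z_w` a complex number for each infinite place `w` (real for real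
`w`), `η > 0`, `0 < a ≤ b < 1` and `c₀ ≥ 0`. For every `ε > 0` there is `B₀` such that for all `B ≥ B₀`, all `κ` with
`a ≤ κ ≤ b` and all `c` with `|c| ≤ c₀` the set `Points z η κ c B` is finite, and its cardinality `V(κ, c, B)` satisfies
`|(log V(κ, c, B) - d (2 - κ) log B) / √(log B / log log B) - √(24 κ d)| ≤ ε`. -/
theorem result : ∀ (K : Type) [Field K] [NumberField K] (z : InfinitePlace K → ℂ) (η a b c₀ : ℝ),
    (∀ w : InfinitePlace K, w.IsReal → (z w).im = 0) → 0 < η → 0 < a → a ≤ b → b < 1 → 0 ≤ c₀ →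
    ∀ ε : ℝ, 0 < ε → ∃ B₀ : ℝ, ∀ B : ℝ, B₀ ≤ B → ∀ κ c : ℝ, a ≤ κ → κ ≤ b → |c| ≤ c₀ →
      (Points z η κ c B).Finite ∧
      |(Real.log ((Points z η κ c B).ncard : ℝ) - Module.finrank ℚ K * (2 - κ) * Real.log B) /
        √(Real.log B / Real.log (Real.log B)) - √(24 * κ * Module.finrank ℚ K)| ≤ ε := by
  intro K _ _ z η a b c₀ hz hη ha hab hb hc₀ ε hε
  obtain ⟨B₀, hB₀⟩ := eventually_atTop.1
    (Pool.Agent.N906.LD.uni z η hz hη ha hab hb hc₀ hε)
  exact ⟨B₀, fun B hB κ c h1 h2 h3 =>
    ⟨(Pool.Agent.N906.QP.Aff.xq_limit z η κ c hz hη (by linarith) (by linarith)).1 B,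
      hB₀ B hB κ c h1 h2 h3⟩⟩

end Pool.Agent.Results.MP_6e34ef_nt.UniformSecondOrder
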